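import Pool.Agent.Y150.KS.Defs

/-! KS-4: maximal rank gives enough elements. -/

set_option autoImplicit false
set_option linter.all false

namespace Pool.Agent.Y427.KS

open Pool.Agent.Y150.KS

theorem approx {r : ℕ} (A : AddSubgroup (Fin r → ℝ)) (v : Fin r → ℝ)
    (hv : v ∈ Submodule.span ℝ (A : Set (Fin r → ℝ))) :
    ∃ B : ℝ, ∀ x : ℝ, ∃ w ∈ A, ∀ j, |w j - x * v j| ≤ B := by
  induction hv using Submodule.span_induction with
  | mem v hv =>
    refine ⟨‖v‖, fun x => ⟨⌊x⌋ • v, A.zsmul_mem hv _, fun j => ?_⟩⟩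
    have h1 : (⌊x⌋ • v) j = (⌊x⌋ : ℝ) * v j := by simp
    rw [h1, ← sub_mul, abs_mul]
    have h2 : |(⌊x⌋ : ℝ) - x| ≤ 1 := by
      rw [abs_sub_comm, abs_of_nonneg (sub_nonneg.2 (Int.floor_le x))]
      linarith [Int.lt_floor_add_one x]
    have h3 : |v j| ≤ ‖v‖ := norm_le_pi_norm v j
    calc |(⌊x⌋ : ℝ) - x| * |v j| ≤ 1 * |v j| := mul_le_mul_of_nonneg_right h2 (abs_nonneg _)
      _ ≤ ‖v‖ := by rw [one_mul]; exact h3
  | zero =>
    refine ⟨0, fun x => ⟨0, A.zero_mem, fun j => ?_⟩⟩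
    simp
  | add u v _ _ hu hv =>
    obtain ⟨B1, h1⟩ := hu
    obtain ⟨B2, h2⟩ := hv
    refine ⟨B1 + B2, fun x => ?_⟩
    obtain ⟨w1, hw1, h3⟩ := h1 x
    obtain ⟨w2, hw2, h4⟩ := h2 x
    refine ⟨w1 + w2, A.add_mem hw1 hw2, fun j => ?_⟩
    have h5 : (w1 + w2) j - x * (u + v) j = (w1 j - x * u j) + (w2 j - x * v j) := by
      simp only [Pi.add_apply]
      ring
    rw [h5]
    exact (abs_add_le _ _).trans (add_le_add (h3 j) (h4 j))
  | smul c v _ hv =>
    obtain ⟨B, h1⟩ := hv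
    refine ⟨B, fun x => ?_⟩
    obtain ⟨w, hw, h2⟩ := h1 (x * c)
    refine ⟨w, hw, fun j => ?_⟩
    have h3 : x * (c • v) j = x * c * v j := by
      simp only [Pi.smul_apply, smul_eq_mul]
      ring
    rw [h3]
    exact h2 j

theorem lat : S_lat := by
  intro E _ Γ r χ hpos hmul hone hmax i
  obtain ⟨hr, hinv, hprod, hspan⟩ := hmax
  let A : AddSubgroup (Fin r → ℝ) :=
    { carrier := {w : Fin r → ℝ | ∃ g ∈ Γ, w = fun i => Real.log (χ g i)}
      zero_mem' := ⟨1, Γ.one_mem, by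
        funext j
        rw [hone j, Real.log_one]
        rfl⟩
      add_mem' := by
        rintro a b ⟨g, hg, rfl⟩ ⟨h, hh, rfl⟩
        refine ⟨g * h, Γ.mul_mem hg hh, ?_⟩
        funext j
        rw [hmul g hg h hh j, Real.log_mul (hpos g hg j).ne' (hpos h hh j).ne']
        rfl
      neg_mem' := by
        rintro a ⟨g, hg, rfl⟩
        obtain ⟨h, hh, he⟩ := hinv g hg
        refine ⟨h, hh, ?_⟩
        funext j
        have h1 := hmul g hg h hh j
        rw [he, hone] at h1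
        have h2 : χ h j = (χ g j)⁻¹ := eq_inv_of_mul_eq_one_right h1.symm
        rw [h2, Real.log_inv]
        rfl }
  have hv := hspan (fun j => if j = i then (r : ℝ) - 1 else -1) (by
    have h1 : ∀ j : Fin r, (if j = i then (r : ℝ) - 1 else -1) = (if j = i then (r : ℝ) else 0) + (-1) := by
      intro j
      split_ifs <;> ring
    simp only [h1]
    rw [Finset.sum_add_distrib]
    simp)
  obtain ⟨B, hB⟩ := approx A _ hv
  obtain ⟨w, ⟨g, hg, rfl⟩, hw⟩ := hB (B + 1)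
  have hB0 : 0 ≤ B := (abs_nonneg _).trans (hw i)
  have hr1 : (1 : ℝ) ≤ (r : ℝ) - 1 := by
    have : (2 : ℝ) ≤ r := by exact_mod_cast hr
    linarith
  refine ⟨g, hg, ?_, fun j hj => ?_⟩
  · have h1 := (abs_le.1 (hw i)).1
    rw [if_pos rfl] at h1
    have h2 : 0 < Real.log (χ g i) := by nlinarith
    exact (Real.log_pos_iff (hpos g hg i).le).1 h2
  · have h1 := (abs_le.1 (hw j)).2
    rw [if_neg hj] at h1
    have h2 : Real.log (χ g j) ≤ 0 := by linarith
    exact (Real.log_nonpos_iff (hpos g hg j).le).1 h2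

end Pool.Agent.Y427.KS
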